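import Pool.Agent.T6.H53.AL.Area2

/-!
The area of the planar self-avoiding polygons at large scales: two-sided bounds of the tail for all
perimeters, with an isoperimetric upper bound.
-/

set_option autoImplicit false

namespace Pool.Agent.Results.MP_2250b1_co.AreaLargeDeviations

open Filter Topology

/-- a closed nearest-neighbour loop on `ℤ²` with `m` steps, rooted at the origin and oriented,
that visits no vertex twice -/
def IsLoop (m : ℕ) (f : ZMod m → ℤ × ℤ) : Prop :=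
  f 0 = 0 ∧ Function.Injective f ∧
    ∀ i : ZMod m, |(f (i + 1)).1 - (f i).1| + |(f (i + 1)).2 - (f i).2| = 1

/-- the edge from `f k` to `f (k+1)` is horizontal, joins the columns `x = a` and `x = a + 1`, and
has height larger than `b`: it lies above the unit cell `[a, a+1] × [b, b+1]` -/
def Above (m : ℕ) (f : ZMod m → ℤ × ℤ) (a b : ℤ) (k : ZMod m) : Prop :=
  (((f k).1 = a ∧ (f (k + 1)).1 = a + 1) ∨ ((f k).1 = a + 1 ∧ (f (k + 1)).1 = a)) ∧ b < (f k).2

/-- the unit cell `[a, a+1] × [b, b+1]` is enclosed by the loop: the vertical ray from the cell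
upwards crosses an odd number of edges -/
def Encl (m : ℕ) (f : ZMod m → ℤ × ℤ) (c : ℤ × ℤ) : Prop :=
  Odd (Nat.card {k : ZMod m // Above m f c.1 c.2 k})

/-- the area: the number of unit cells enclosed by the loop -/
noncomputable def area (m : ℕ) (f : ZMod m → ℤ × ℤ) : ℕ := Nat.card {c : ℤ × ℤ // Encl m f c}

/-- `Prob(A_n ≥ r)`: the proportion of the self-avoiding polygons of perimeter `2 n` with area at
least `r` -/
noncomputable def large (n : ℕ) (r : ℝ) : ℝ :=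
  ({f : ZMod (2 * n) → ℤ × ℤ | IsLoop (2 * n) f ∧ r ≤ area (2 * n) f}.ncard : ℝ) /
    ({f : ZMod (2 * n) → ℤ × ℤ | IsLoop (2 * n) f}.ncard : ℝ)

/-- `ω` is an `n`-step self-avoiding walk on `ℤ²` started at the origin. -/
def IsSAW (n : ℕ) (ω : Fin (n + 1) → ℤ × ℤ) : Prop :=
  ω 0 = (0, 0) ∧
  (∀ i : Fin n, |(ω i.succ).1 - (ω i.castSucc).1| + |(ω i.succ).2 - (ω i.castSucc).2| = 1) ∧
  Function.Injective ω

/-- `c_n`: the number of `n`-step self-avoiding walks from the origin -/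
noncomputable def c (n : ℕ) : ℕ := Nat.card {ω : Fin (n + 1) → ℤ × ℤ // IsSAW n ω}

/-- `c_n(x)`: the number of `n`-step self-avoiding walks from the origin to `x` -/
noncomputable def cx (n : ℕ) (x : ℤ × ℤ) : ℕ :=
  Nat.card {ω : Fin (n + 1) → ℤ × ℤ // IsSAW n ω ∧ ω (Fin.last n) = x}

/-- `P_n(ω(n) = x)`, the probability that the uniform `n`-step self-avoiding walk ends at `x` -/
noncomputable def P (n : ℕ) (x : ℤ × ℤ) : ℝ := (cx n x : ℝ) / (c n : ℝ)

/-- `Y(u) = (1 + log (1/u)) (1 + log (1 + log (1/u)))` -/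
noncomputable def Y (u : ℝ) : ℝ :=
  (1 + Real.log (1 / u)) * (1 + Real.log (1 + Real.log (1 / u)))

theorem c_eq (n : ℕ) : c n = TH795.EP.c n := TH795.EP2.card_walks n

theorem cx_eq (n : ℕ) (x : ℤ × ℤ) : cx n x = TH795.EP.a n x.1 x.2 := TH795.EP2.card_walks_to n x

/-- **Theorem.** Let `μ = lim c_n^(1/n)`.  There are a function `I` and a constant `C > 0` with:
(1) `I` is the rate function of the end point of the self-avoiding walk: it is convex on the square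
`|v₁| + |v₂| ≤ 1` and `|log P_n(ω(n) = x) + n I(x / n)| ≤ C (log n)²` for all `n ≥ 2` and all
`x ≠ 0` which an `n`-step walk can reach; and
`exp(- C Y(u)) ≤ I(u, 0) ≤ C u² (1 + log (1/u))²` for `0 < u ≤ 1`;
(2) for the area `A_n` of the uniform self-avoiding polygon of perimeter `2 n`, `n ≥ 2`:
`Prob(A_n ≥ m²) ≤ exp(- 2 n I(m/n, m/n) + C (log n)²)` for all real `m > 0`, and
`Prob(A_n ≥ k²) ≥ exp(- 2 n I(2 k/n, 0) - C (log n)²)` for `1 ≤ k < n / 2`;
(3) for `1 ≤ k < n / 2`: `exp(- C ((k²/n) (1 + log (n/k))² + (log n)²)) ≤ Prob(A_n ≥ k²) ≤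
exp(C (log n)² - 2 n exp(- C Y(k/n)))`;
(4) for `0 < u < 1/4` and `ε > 0`, for all large `n`,
`- 2 I(2 √u, 0) - ε ≤ (1/n) log Prob(A_n ≥ u n²) ≤ - 2 I(√u, √u) + ε`. -/
theorem result : ∃ (μ : ℝ) (I : ℝ × ℝ → ℝ) (C : ℝ), 0 < C ∧
    Tendsto (fun n : ℕ => (c n : ℝ) ^ (1 / (n : ℝ))) atTop (𝓝 μ) ∧
    (ConvexOn ℝ {v : ℝ × ℝ | |v.1| + |v.2| ≤ 1} I ∧
      (∀ n : ℕ, 2 ≤ n → ∀ x : ℤ × ℤ, x ≠ 0 → (x.1 + x.2 - n) % 2 = 0 → |x.1| + |x.2| ≤ n →
        |Real.log (P n x) + n * I ((x.1 : ℝ) / n, (x.2 : ℝ) / n)| ≤ C * Real.log n ^ 2) ∧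
      ∀ u : ℝ, 0 < u → u ≤ 1 → Real.exp (-(C * Y u)) ≤ I (u, 0) ∧
        I (u, 0) ≤ C * (u ^ 2 * (1 + Real.log (1 / u)) ^ 2)) ∧
    (∀ n : ℕ, 2 ≤ n →
      (∀ m : ℝ, 0 < m →
        large n (m ^ 2) ≤ Real.exp (-(2 * n * I (m / n, m / n)) + C * Real.log n ^ 2)) ∧
      ∀ k : ℕ, 1 ≤ k → 2 * k < n →
        Real.exp (-(2 * n * I (2 * k / n, 0)) - C * Real.log n ^ 2) ≤ large n ((k : ℝ) ^ 2)) ∧
    (∀ n : ℕ, 2 ≤ n → ∀ k : ℕ, 1 ≤ k → 2 * k < n →
      Real.exp (-(C * ((k : ℝ) ^ 2 / n * (1 + Real.log (n / k)) ^ 2 + Real.log n ^ 2))) ≤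
        large n ((k : ℝ) ^ 2) ∧
      large n ((k : ℝ) ^ 2) ≤
        Real.exp (C * Real.log n ^ 2 - 2 * n * Real.exp (-(C * Y ((k : ℝ) / n))))) ∧
    ∀ u : ℝ, 0 < u → u < 1 / 4 → ∀ ε : ℝ, 0 < ε → ∀ᶠ n : ℕ in atTop,
      -(2 * I (2 * √u, 0)) - ε ≤ Real.log (large n (u * (n : ℝ) ^ 2)) / n ∧
      Real.log (large n (u * (n : ℝ) ^ 2)) / n ≤ -(2 * I (√u, √u)) + ε := by
  obtain ⟨C1, hC1, h1⟩ := Pool.Agent.T6.H53.WL.R_lower
  obtain ⟨C2, hC2, h2⟩ := Pool.Agent.T6.H53.WL.R_upper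
  obtain ⟨C3, hC3, h3⟩ := Pool.Agent.T6.H53.AL.par_bounds
  obtain ⟨C4, hC4, h4⟩ := Pool.Agent.T6.H53.AL.par_rate
  obtain ⟨C5, hC5, h5⟩ := Pool.Agent.T6.H53.AL.area_upper
  obtain ⟨C7, hC7, h7⟩ := Pool.Agent.Y981.L2.ldp_words
  set C := C1 + C2 + C3 + C4 + C5 + C7 with hC
  have hYpos : ∀ u : ℝ, 0 < u → u ≤ 1 → 0 ≤ Y u := fun u hu hu1 =>
    zero_le_one.trans (Pool.Agent.T6.H53.WL.one_le_Yv hu hu1)
  have hL : ∀ n : ℕ, 0 ≤ Real.log (n : ℝ) ^ 2 := fun n => by positivity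
  refine ⟨H981.mu, Pool.Agent.Y981.L2.Rate, C, by linarith, ?_,
    ⟨Pool.Agent.Y981.L2.convex_rate, ?_, ?_⟩, ?_, ?_, ?_⟩
  · refine H981.tendsto_root.congr ?_
    intro n
    rw [c_eq, TH795.EP.c_eq]
  · intro n hn x hx hpar hle
    have h := h7 n hn x.1 x.2 hx hpar hle
    unfold P
    rw [c_eq, cx_eq]
    refine h.trans (mul_le_mul_of_nonneg_right (by linarith) (hL n))
  · intro u hu hu1
    have hY := hYpos u hu hu1
    constructor
    · refine le_trans (Real.exp_le_exp.2 ?_) (h1 u hu hu1)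
      have : C1 * Y u ≤ C * Y u := mul_le_mul_of_nonneg_right (by linarith) hY
      exact neg_le_neg this
    · exact (h2 u hu hu1).trans (mul_le_mul_of_nonneg_right (by linarith) (by positivity))
  · intro n hn
    constructor
    · intro m hm
      refine (h5 n hn m hm).trans (Real.exp_le_exp.2 ?_)
      have := mul_le_mul_of_nonneg_right (show C5 ≤ C by linarith) (hL n)
      linarith
    · intro k hk hkn
      refine le_trans (Real.exp_le_exp.2 ?_) (h4 n hn k hk hkn).1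
      have := mul_le_mul_of_nonneg_right (show C4 ≤ C by linarith) (hL n)
      unfold Pool.Agent.Y981.L2.R
      linarith
  · intro n hn k hk hkn
    obtain ⟨g1, g2⟩ := h3 n hn k hk hkn
    have hn0 : (0 : ℝ) < n := by exact_mod_cast (by omega : 0 < n)
    have hk0 : (0 : ℝ) < k := by exact_mod_cast (by omega : 0 < k)
    have hu : 0 < (k : ℝ) / n := by positivity
    have hu1 : (k : ℝ) / n ≤ 1 := by
      rw [div_le_one hn0]
      exact_mod_cast (by omega : k ≤ n)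
    have hY := hYpos _ hu hu1
    constructor
    · refine le_trans (Real.exp_le_exp.2 (neg_le_neg ?_)) g1
      exact mul_le_mul_of_nonneg_right (by linarith) (by positivity)
    · refine g2.trans (Real.exp_le_exp.2 ?_)
      have g3 : C3 * Real.log (n : ℝ) ^ 2 ≤ C * Real.log n ^ 2 :=
        mul_le_mul_of_nonneg_right (by linarith) (hL n)
      have g4 : Real.exp (-(C * Y ((k : ℝ) / n))) ≤
          Real.exp (-(C3 * Pool.Agent.T6.H53.WL.Yv ((k : ℝ) / n))) := by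
        apply Real.exp_le_exp.2
        have : C3 * Y ((k : ℝ) / n) ≤ C * Y ((k : ℝ) / n) :=
          mul_le_mul_of_nonneg_right (by linarith) hY
        exact neg_le_neg this
      have g5 := mul_le_mul_of_nonneg_left g4 (show 0 ≤ 2 * (n : ℝ) by positivity)
      linarith
  · intro u hu hu1 ε hε
    exact Pool.Agent.T6.H53.AL.area_rate hu hu1 hε

end Pool.Agent.Results.MP_2250b1_co.AreaLargeDeviations
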