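import Pool.Agent.T6.H53.CP.MainA
import Pool.Agent.T6.H53.CP.Blk
import Pool.Agent.T6.H53.CP.Chn
import Pool.Agent.T6.H53.CP.Side
import Pool.Agent.T6.H53.CP.Loop
import Pool.Agent.T6.H53.CP.Ves
import Pool.Agent.T6.H53.CP.Vex
import Pool.Agent.T6.H53.CP.Veo
import Pool.Agent.T6.H53.CP.Expl
import Pool.Agent.T6.H53.CP.Expo2

/-!
Planar self-avoiding polygons of small area: lower bounds of the probability that the area is small
and of the Laplace transform of the area, in terms of the correlation length.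
-/

set_option autoImplicit false

namespace Pool.Agent.Results.MP_2250b1_co.DeflatedPolygons

open Filter Topology

/-- a closed nearest-neighbour loop on `ℤ²` with `m` steps, rooted at the origin and oriented,
that visits no vertex twice -/
def IsLoop (m : ℕ) (f : ZMod m → ℤ × ℤ) : Prop :=
  f 0 = 0 ∧ Function.Injective f ∧
    ∀ i : ZMod m, |(f (i + 1)).1 - (f i).1| + |(f (i + 1)).2 - (f i).2| = 1

/-- the edge from `f k` to `f (k+1)` is horizontal, joins the columns `x = a` and `x = a + 1`, and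
has height larger than `b`: it lies above the unit cell `[a, a+1] × [b, b+1]` -/
def Above (m : ℕ) (f : ZMod m → ℤ × ℤ) (a b : ℤ) (k : ZMod m) : Prop :=
  (((f k).1 = a ∧ (f (k + 1)).1 = a + 1) ∨ ((f k).1 = a + 1 ∧ (f (k + 1)).1 = a)) ∧ b < (f k).2

/-- the unit cell `[a, a+1] × [b, b+1]` is enclosed by the loop: the vertical ray from the cell
upwards crosses an odd number of edges -/
def Encl (m : ℕ) (f : ZMod m → ℤ × ℤ) (c : ℤ × ℤ) : Prop :=
  Odd (Nat.card {k : ZMod m // Above m f c.1 c.2 k})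

/-- the area: the number of unit cells enclosed by the loop -/
noncomputable def area (m : ℕ) (f : ZMod m → ℤ × ℤ) : ℕ := Nat.card {c : ℤ × ℤ // Encl m f c}

/-- `Prob(A_n ≤ r)`: the proportion of the self-avoiding polygons of perimeter `2 n` with area at
most `r` -/
noncomputable def small (n : ℕ) (r : ℝ) : ℝ :=
  ({f : ZMod (2 * n) → ℤ × ℤ | IsLoop (2 * n) f ∧ (area (2 * n) f : ℝ) ≤ r}.ncard : ℝ) /
    ({f : ZMod (2 * n) → ℤ × ℤ | IsLoop (2 * n) f}.ncard : ℝ)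

/-- `E[exp(- τ A_n)]`, for the area `A_n` of the uniform self-avoiding polygon of perimeter `2 n` -/
noncomputable def laplace (n : ℕ) (τ : ℝ) : ℝ :=
  (∑ᶠ f ∈ {f : ZMod (2 * n) → ℤ × ℤ | IsLoop (2 * n) f}, Real.exp (-(τ * area (2 * n) f))) /
    ({f : ZMod (2 * n) → ℤ × ℤ | IsLoop (2 * n) f}.ncard : ℝ)

/-- `ω` is an `n`-step self-avoiding walk on `ℤ²` started at the origin. -/
def IsSAW (n : ℕ) (ω : Fin (n + 1) → ℤ × ℤ) : Prop :=
  ω 0 = (0, 0) ∧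
  (∀ i : Fin n, |(ω i.succ).1 - (ω i.castSucc).1| + |(ω i.succ).2 - (ω i.castSucc).2| = 1) ∧
  Function.Injective ω

/-- `c_n`: the number of `n`-step self-avoiding walks from the origin -/
noncomputable def c (n : ℕ) : ℕ := Nat.card {ω : Fin (n + 1) → ℤ × ℤ // IsSAW n ω}

/-- `c_n(x)`: the number of `n`-step self-avoiding walks from the origin to `x` -/
noncomputable def cx (n : ℕ) (x : ℤ × ℤ) : ℕ :=
  Nat.card {ω : Fin (n + 1) → ℤ × ℤ // IsSAW n ω ∧ ω (Fin.last n) = x}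

/-- the two-point function `G_z(x) = ∑_n c_n(x) z^n` -/
noncomputable def G (z : ℝ) (x : ℤ × ℤ) : ℝ := ∑' n : ℕ, (cx n x : ℝ) * z ^ n

theorem c_eq (n : ℕ) : c n = TH795.EP.c n := TH795.EP2.card_walks n

theorem cx_eq (n : ℕ) (x : ℤ × ℤ) : cx n x = TH795.EP.a n x.1 x.2 := TH795.EP2.card_walks_to n x

theorem G_eq (z : ℝ) (k : ℕ) : G z ((k : ℤ), 0) = Y981.L2.Gz z k 0 := by
  unfold G Y981.L2.Gz
  apply tsum_congr
  intro n
  rw [cx_eq]

/-- **Theorem.** Let `A_n` be the area of the uniform self-avoiding polygon of perimeter `2 n`,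
`μ = lim c_n^(1/n)` the connective constant and `ξ(z) = (lim_k - (1/k) log G_z((k, 0)))^(-1)`
(`0 < z < 1/μ`) the correlation length.  There are constants `C, a > 0` with:
(1) for all `N ≥ 2` and `n ≥ C N²`, with `ℓ = (log N)² ξ(e^(-1/N) / μ)`:
`Prob(A_n ≤ C (n / N) ℓ²) ≥ exp(- C (n / N) (log N)²)` and, for `τ ≥ 0`,
`E[exp(- τ A_n)] ≥ exp(- C (n / N) ((log N)² + τ ℓ²))`;
(2) for all small `τ > 0` and all large `n` (depending on `τ`):
`E[exp(- τ A_n)] ≥ exp(- n τ^(1/2 + a / log log (1/τ)))`;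
for all large `b` and all large `n` (depending on `b`):
`Prob(A_n ≤ b n) ≥ exp(- n b^(- (1 + a / log log b)))`;
(3) if `0 < θ < 1` and `ξ(z) ≤ (1/μ - z)^(-(θ + o(1)))` as `z ↑ 1/μ` then, for every `ε > 0`, the
bounds of (2) hold with `τ^(1/(2θ) - ε)` and, if `θ > 1/2`, with `b^(- (1/(2θ - 1) - ε))`. -/
theorem result : ∃ (μ : ℝ) (ξ : ℝ → ℝ) (C a : ℝ), 0 < μ ∧ 0 < C ∧ 0 < a ∧
    Tendsto (fun n : ℕ => (c n : ℝ) ^ (1 / (n : ℝ))) atTop (𝓝 μ) ∧
    (∀ z : ℝ, 0 < z → z < 1 / μ → 0 < ξ z ∧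
      Tendsto (fun k : ℕ => - Real.log (G z ((k : ℤ), 0)) / k) atTop (𝓝 (1 / ξ z))) ∧
    (∀ N : ℕ, 2 ≤ N → ∀ n : ℕ, C * (N : ℝ) ^ 2 ≤ n →
      Real.exp (-(C * (n / N * Real.log N ^ 2))) ≤
        small n (C * (n / N * (Real.log N ^ 2 * ξ (Real.exp (-(1 / (N : ℝ))) / μ)) ^ 2)) ∧
      ∀ τ : ℝ, 0 ≤ τ → Real.exp (-(C * (n / N * (Real.log N ^ 2 +
        τ * (Real.log N ^ 2 * ξ (Real.exp (-(1 / (N : ℝ))) / μ)) ^ 2)))) ≤ laplace n τ) ∧
    ((∀ᶠ τ in 𝓝[>] (0 : ℝ), ∀ᶠ n : ℕ in atTop,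
      Real.exp (-(n * τ ^ (1 / 2 + a / Real.log (Real.log (1 / τ))))) ≤ laplace n τ) ∧
    ∀ᶠ b : ℝ in atTop, ∀ᶠ n : ℕ in atTop,
      Real.exp (-(n * b ^ (-(1 + a / Real.log (Real.log b))))) ≤ small n (b * n)) ∧
    ∀ θ : ℝ, 0 < θ → θ < 1 →
      (∀ ε : ℝ, 0 < ε → ∀ᶠ z in 𝓝[<] (1 / μ), ξ z ≤ (1 / μ - z) ^ (-(θ + ε))) →
      ∀ ε : ℝ, 0 < ε →
        (∀ᶠ τ in 𝓝[>] (0 : ℝ), ∀ᶠ n : ℕ in atTop,
          Real.exp (-(n * τ ^ (1 / (2 * θ) - ε))) ≤ laplace n τ) ∧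
        (1 / 2 < θ → ∀ᶠ b : ℝ in atTop, ∀ᶠ n : ℕ in atTop,
          Real.exp (-(n * b ^ (-(1 / (2 * θ - 1) - ε)))) ≤ small n (b * n)) := by
  have hmu := H981.mu_pos
  have hbox := Pool.Agent.T6.H53.CP.box Pool.Agent.T6.H53.CP.blk Pool.Agent.T6.H53.CP.chn
    Pool.Agent.T6.H53.CP.side Pool.Agent.T6.H53.CP.loop
  have hves := Pool.Agent.T6.H53.CP.ves1 hbox
  obtain ⟨C, hC, h1⟩ := Pool.Agent.T6.H53.CP.ves_all hves
  obtain ⟨a, ha, h2⟩ := Pool.Agent.T6.H53.CP.vex hves Pool.Agent.T6.H53.CP.expl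
  refine ⟨H981.mu, Y981.L2.xi, C, a, hmu, by linarith, ha, ?_, ?_, h1, h2, ?_⟩
  · refine H981.tendsto_root.congr ?_
    intro n
    rw [c_eq, TH795.EP.c_eq]
  · intro z hz hz1
    have he : 0 < -Real.log (z * H981.mu) := by
      have h1 : z * H981.mu < 1 := by rwa [lt_div_iff₀ hmu] at hz1
      have h2 := Real.log_neg (mul_pos hz hmu) h1
      linarith
    have hm := Y981.L2.mass_pos he
    constructor
    · unfold Y981.L2.xi
      positivity
    · have h := Y981.L2.G_tendsto hz hz1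
      unfold Y981.L2.xi
      rw [one_div_one_div]
      refine h.congr ?_
      intro k
      rw [G_eq]
  · intro θ h0 h1' hM ε hε
    exact Pool.Agent.T6.H53.CP.veo hves Pool.Agent.T6.H53.CP.expo θ h0 h1' ((Y981.L2.xi_upper θ h0).2 hM) ε hε

end Pool.Agent.Results.MP_2250b1_co.DeflatedPolygons
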