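import Pool.Agent.T6.H53.FR.Fin
import Pool.Agent.T6.H53.FR.A
import Pool.Agent.T6.H53.FR.B
import Pool.Agent.T6.H53.FR.C
import Pool.Agent.T6.H53.FR.D
import Pool.Agent.T6.H53.FR.T

/-!
Planar self-avoiding polygons: the exponent of the correlation length, the exponent of the rate
function at zero and the exponents of the tails of the area and of the width beyond the typical
scale determine each other.
-/

set_option autoImplicit false

namespace Pool.Agent.Results.MP_2250b1_co.FisherRelation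

open Filter Topology

/-- a closed nearest-neighbour loop on `ℤ²` with `m` steps, rooted at the origin and oriented,
that visits no vertex twice -/
def IsLoop (m : ℕ) (f : ZMod m → ℤ × ℤ) : Prop :=
  f 0 = 0 ∧ Function.Injective f ∧
    ∀ i : ZMod m, |(f (i + 1)).1 - (f i).1| + |(f (i + 1)).2 - (f i).2| = 1

/-- the edge from `f k` to `f (k+1)` is horizontal, joins the columns `x = a` and `x = a + 1`, and
has height larger than `b`: it lies above the unit cell `[a, a+1] × [b, b+1]` -/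
def Above (m : ℕ) (f : ZMod m → ℤ × ℤ) (a b : ℤ) (k : ZMod m) : Prop :=
  (((f k).1 = a ∧ (f (k + 1)).1 = a + 1) ∨ ((f k).1 = a + 1 ∧ (f (k + 1)).1 = a)) ∧ b < (f k).2

/-- the unit cell `[a, a+1] × [b, b+1]` is enclosed by the loop: the vertical ray from the cell
upwards crosses an odd number of edges -/
def Encl (m : ℕ) (f : ZMod m → ℤ × ℤ) (c : ℤ × ℤ) : Prop :=
  Odd (Nat.card {k : ZMod m // Above m f c.1 c.2 k})

/-- the area: the number of unit cells enclosed by the loop -/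
noncomputable def area (m : ℕ) (f : ZMod m → ℤ × ℤ) : ℕ := Nat.card {c : ℤ × ℤ // Encl m f c}

/-- the width (horizontal extent) of a loop -/
noncomputable def width (m : ℕ) (f : ZMod m → ℤ × ℤ) : ℕ :=
  sSup {w : ℕ | ∃ i j, w = ((f i).1 - (f j).1).natAbs}

/-- `Prob(A_n ≥ r)`: the proportion of the self-avoiding polygons of perimeter `2 n` with area at
least `r` -/
noncomputable def large (n : ℕ) (r : ℝ) : ℝ :=
  ({f : ZMod (2 * n) → ℤ × ℤ | IsLoop (2 * n) f ∧ r ≤ area (2 * n) f}.ncard : ℝ) /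
    ({f : ZMod (2 * n) → ℤ × ℤ | IsLoop (2 * n) f}.ncard : ℝ)

/-- `Prob(w_n ≥ r)`: the proportion of the self-avoiding polygons of perimeter `2 n` with width at
least `r` -/
noncomputable def wide (n : ℕ) (r : ℝ) : ℝ :=
  ({f : ZMod (2 * n) → ℤ × ℤ | IsLoop (2 * n) f ∧ r ≤ width (2 * n) f}.ncard : ℝ) /
    ({f : ZMod (2 * n) → ℤ × ℤ | IsLoop (2 * n) f}.ncard : ℝ)

/-- `ω` is an `n`-step self-avoiding walk on `ℤ²` started at the origin. -/
def IsSAW (n : ℕ) (ω : Fin (n + 1) → ℤ × ℤ) : Prop :=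
  ω 0 = (0, 0) ∧
  (∀ i : Fin n, |(ω i.succ).1 - (ω i.castSucc).1| + |(ω i.succ).2 - (ω i.castSucc).2| = 1) ∧
  Function.Injective ω

/-- `c_n`: the number of `n`-step self-avoiding walks from the origin -/
noncomputable def c (n : ℕ) : ℕ := Nat.card {ω : Fin (n + 1) → ℤ × ℤ // IsSAW n ω}

/-- `c_n(x)`: the number of `n`-step self-avoiding walks from the origin to `x` -/
noncomputable def cx (n : ℕ) (x : ℤ × ℤ) : ℕ :=
  Nat.card {ω : Fin (n + 1) → ℤ × ℤ // IsSAW n ω ∧ ω (Fin.last n) = x}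

/-- the two-point function `G_z(x) = ∑_n c_n(x) z^n` -/
noncomputable def G (z : ℝ) (x : ℤ × ℤ) : ℝ := ∑' n : ℕ, (cx n x : ℝ) * z ^ n

theorem c_eq (n : ℕ) : c n = TH795.EP.c n := TH795.EP2.card_walks n

theorem cx_eq (n : ℕ) (x : ℤ × ℤ) : cx n x = TH795.EP.a n x.1 x.2 := TH795.EP2.card_walks_to n x

theorem G_eq (z : ℝ) (k : ℕ) : G z ((k : ℤ), 0) = Y981.L2.Gz z k 0 := by
  unfold G Y981.L2.Gz
  apply tsum_congr
  intro n
  rw [cx_eq]

/-- **Theorem.** Let `A_n` and `w_n` be the area and the width of the uniform self-avoiding polygon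
of perimeter `2 n`, `μ = lim c_n^(1/n)` the connective constant,
`ξ(z) = (lim_k - (1/k) log G_z((k, 0)))^(-1)` (`0 < z < 1/μ`) the correlation length and
`J(u) = - (1/2) lim_n (1/n) log Prob(w_n ≥ u n)` (`0 < u < 1`) the rate function of the width.
For `0 < θ < κ < 1` the following are equivalent (so that each of (c), (d) for one `κ` is
equivalent to the same for all `κ`):
(a) `log ξ(z) / log (1/(1/μ - z)) → θ` as `z ↑ 1/μ`;
(b) `log J(u) / log u → 1 / (1 - θ)` as `u ↓ 0`;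
(c) `log (- log Prob(A_n ≥ n^(2κ))) / log n → (κ - θ) / (1 - θ)`;
(d) `log (- log Prob(w_n ≥ n^κ)) / log n → (κ - θ) / (1 - θ)`.
The equivalences also hold one-sidedly: (1) between `ξ(z) ≤ (1/μ - z)^(-(θ + o(1)))`,
`J(u) ≥ u^(1/(1-θ) + o(1))` and the upper bounds `exp(- n^((κ-θ)/(1-θ) - o(1)))` of the two
probabilities; (2) between `ξ(z) ≥ (1/μ - z)^(-(θ - o(1)))`, `J(u) ≤ u^(1/(1-θ) - o(1))` and the
lower bounds `exp(- n^((κ-θ)/(1-θ) + o(1)))`. -/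
theorem result : ∃ (μ : ℝ) (ξ J : ℝ → ℝ), 0 < μ ∧
    Tendsto (fun n : ℕ => (c n : ℝ) ^ (1 / (n : ℝ))) atTop (𝓝 μ) ∧
    (∀ z : ℝ, 0 < z → z < 1 / μ → 0 < ξ z ∧
      Tendsto (fun k : ℕ => - Real.log (G z ((k : ℤ), 0)) / k) atTop (𝓝 (1 / ξ z))) ∧
    (∀ u : ℝ, 0 < u → u < 1 → 0 < J u ∧
      Tendsto (fun n : ℕ => Real.log (wide n (u * n)) / n) atTop (𝓝 (-(2 * J u)))) ∧
    ∀ θ κ : ℝ, 0 < θ → θ < κ → κ < 1 →
      List.TFAE [
        Tendsto (fun z : ℝ => Real.log (ξ z) / Real.log (1 / (1 / μ - z)))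
          (𝓝[<] (1 / μ)) (𝓝 θ),
        Tendsto (fun u : ℝ => Real.log (J u) / Real.log u) (𝓝[>] 0) (𝓝 (1 / (1 - θ))),
        Tendsto (fun n : ℕ => Real.log (-Real.log (large n ((n : ℝ) ^ (2 * κ)))) / Real.log n)
          atTop (𝓝 ((κ - θ) / (1 - θ))),
        Tendsto (fun n : ℕ => Real.log (-Real.log (wide n ((n : ℝ) ^ κ))) / Real.log n)
          atTop (𝓝 ((κ - θ) / (1 - θ)))] ∧
      List.TFAE [
        ∀ ε : ℝ, 0 < ε → ∀ᶠ z in 𝓝[<] (1 / μ), ξ z ≤ (1 / μ - z) ^ (-(θ + ε)),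
        ∀ ε : ℝ, 0 < ε → ∀ᶠ u in 𝓝[>] (0 : ℝ), u ^ (1 / (1 - θ) + ε) ≤ J u,
        ∀ ε : ℝ, 0 < ε → ∀ᶠ n : ℕ in atTop,
          large n ((n : ℝ) ^ (2 * κ)) ≤ Real.exp (-(n : ℝ) ^ ((κ - θ) / (1 - θ) - ε)),
        ∀ ε : ℝ, 0 < ε → ∀ᶠ n : ℕ in atTop,
          wide n ((n : ℝ) ^ κ) ≤ Real.exp (-(n : ℝ) ^ ((κ - θ) / (1 - θ) - ε))] ∧
      List.TFAE [
        ∀ ε : ℝ, 0 < ε → ∀ᶠ z in 𝓝[<] (1 / μ), (1 / μ - z) ^ (-(θ - ε)) ≤ ξ z,
        ∀ ε : ℝ, 0 < ε → ∀ᶠ u in 𝓝[>] (0 : ℝ), J u ≤ u ^ (1 / (1 - θ) - ε),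
        ∀ ε : ℝ, 0 < ε → ∀ᶠ n : ℕ in atTop,
          Real.exp (-(n : ℝ) ^ ((κ - θ) / (1 - θ) + ε)) ≤ large n ((n : ℝ) ^ (2 * κ)),
        ∀ ε : ℝ, 0 < ε → ∀ᶠ n : ℕ in atTop,
          Real.exp (-(n : ℝ) ^ ((κ - θ) / (1 - θ) + ε)) ≤ wide n ((n : ℝ) ^ κ)] := by
  have hmu := H981.mu_pos
  refine ⟨H981.mu, Y981.L2.xi, Y981.L2.R, hmu, ?_, ?_, ?_, ?_⟩
  · refine H981.tendsto_root.congr ?_
    intro n
    rw [c_eq, TH795.EP.c_eq]
  · intro z hz hz1
    have he : 0 < -Real.log (z * H981.mu) := by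
      have h1 : z * H981.mu < 1 := by rwa [lt_div_iff₀ hmu] at hz1
      have h2 := Real.log_neg (mul_pos hz hmu) h1
      linarith
    have hm := Y981.L2.mass_pos he
    constructor
    · unfold Y981.L2.xi
      positivity
    · have h := Y981.L2.G_tendsto hz hz1
      unfold Y981.L2.xi
      rw [one_div_one_div]
      refine h.congr ?_
      intro k
      rw [G_eq]
  · exact fun u hu hu1 => ⟨Pool.Agent.T6.H53.WL.R_pos hu hu1.le,
      (Pool.Agent.T6.H53.WL.ldp hu hu1).1⟩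
  · intro θ κ h0 h1 h2
    have hA := Pool.Agent.T6.H53.FR.stmA
    have hB := Pool.Agent.T6.H53.FR.stmB
    have hC := Pool.Agent.T6.H53.FR.stmC
    have hD := Pool.Agent.T6.H53.FR.stmD
    have hT := Pool.Agent.T6.H53.FR.stmT
    refine ⟨Pool.Agent.T6.H53.FR.both_tfae hA hB hC hD hT h0 h1 h2, ?_, ?_⟩
    · exact Pool.Agent.T6.H53.FR.upper_tfae' hA hC hT h0 h1 h2
    · exact Pool.Agent.T6.H53.FR.lower_tfae' hB hD hT h0 h1 h2

end Pool.Agent.Results.MP_2250b1_co.FisherRelation
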